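import Pool.Agent.Lib.MP_752584_lc.Final

/-!
Model checking of locally testable languages on countable quasiminimal recursive subshifts.
-/

namespace Pool.Agent.Results.MP_752584_lc.ModelChecking

open Pool.Agent.MP752584

/-- For every countable, quasiminimal, recursive subshift `X` over a finite alphabet, the
model-checking problem of `X` for locally testable languages is decidable: there is a partial
recursive function which, on every finite automaton accepting a locally testable language `L`,
halts and answers correctly whether `L ∩ B(X)` is nonempty. -/
theorem result {S : Type*} [Fintype S] [Primcodable S] [TopologicalSpace S] [DiscreteTopology S]
    (X : Set (ℤ → S)) (hX : IsSubshift X) (hcountable : X.Countable) (hquasi : Quasiminimal X)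
    (hrecursive : ComputablePred fun w : List S => w ∈ Lang X) :
    ModelCheckingDecidable X {L | LocallyTestable L} :=
  main hX hcountable hquasi hrecursive

end Pool.Agent.Results.MP_752584_lc.ModelChecking
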